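import Pool.Agent.Y69.VN.Ri3
import Pool.Agent.Y69.VN.Chn

/-!
# Chern characters of the higher K-theory of group rings, in all degrees and for all groups

Let `R` be a commutative ring, `G` a group and `z` a cycle of degree `n + 1` in the bar complex of
the invertible matrices over `R[G]`, for example the Hurewicz image of a class of `K_{n+1}(R[G])`.
Its Dennis trace has components `T(c)` in `H_{n+1}(Z_G(c); R)`, `c` in `G`, and its Chern character
in cyclic homology has components in `H_{n+1}(Z_G(c) / ⟨c⟩; R)` for `c` of infinite order.  Suppose
that `R` contains the rational numbers and is regular.  If the assembly map for virtually cyclic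
subgroups is onto `K_{n+1}(R[G])`, then rationally all classes come from the finite subgroups
of `G`, the Chern character is zero at the elements of infinite order, and the components at the
elements of finite order come from `K_0` of the group algebras of finite cyclic groups, if they are
tested by rational cocycles: they have the formal properties of characters, `T(c)` is in `ℚ(ζ_m)`
and `T(c ^ t) = σ_t(T(c))` for `t` prime to `m`, where `c ^ m = 1` and `σ_t(ζ_m) = ζ_m ^ t`.

We prove the first statement for all torsion-free commutative rings `R`, all groups `G` and all `n`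
at all elements `c` of infinite order which are, in every finitely generated subgroup of `G`, not
infinitely `p`-divisible for infinitely many primes `p`.  For `n = 0`, and in all degrees for the
cocycles which are invariant under the roots of `c`, the condition of the theorem of Bass on `K_0`
is enough: for infinitely many primes `p` the element `c` is not conjugate to one of its powers
`c ^ (p ^ j)`, `j ≥ 1`.  We prove the second statement for all commutative rings `R` (with a
homomorphism to a field of characteristic zero), all groups `G` and all `n` at all elements `c` of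
finite order.
-/

set_option autoImplicit false

namespace Pool.Agent.Results.MP_6374fb_al.HigherChernCharacters

open Pool.Agent.W644.HK Polynomial

universe u v w x

/-- The tuple `(y_n⁻¹ P y_0, y_0⁻¹ y_1, y_1⁻¹ y_2, …, y_{n-1}⁻¹ y_n)` read off from the points
`y_0, …, y_n` and `P` (the index `i - 1` is cyclic: `0 - 1 = n`).  Every tuple is of this form, its
product is `y_n⁻¹ P y_n`. -/
def pointWord {G : Type v} [Group G] {n : ℕ} (P : G) (y : Fin (n + 1) → G) : Fin (n + 1) → G :=
  fun i => (y (i - 1))⁻¹ * (if i = 0 then P else 1) * y i

/-- The cochain `f` is root invariant: the homogeneous cochain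
`(y_0, …, y_n) ↦ f (pointWord P y)` does not change if a single point `y_j` is replaced by `x y_j`,
where `x` is a root of `P`, that is `x ^ k = P` for some `k ≥ 1`. -/
def RootInvariant {G : Type v} [Group G] {V : Type x} {n : ℕ} (f : (Fin (n + 1) → G) → V) : Prop :=
  ∀ (P x : G) (k : ℕ), 0 < k → x ^ k = P → ∀ (y : Fin (n + 1) → G) (j : Fin (n + 1)),
    f (pointWord P (Function.update y j (x * y j))) = f (pointWord P y)

open Classical in
/-- The `t`-th conjugate of a cochain `f`: if `u = g_0 ⋯ g_n` satisfies `u ^ m = 1`, the value at
`(g_0, …, g_n)` is `f (u ^ t u⁻¹ g_0, g_1, …, g_n)` (a tuple with product `u ^ t`), otherwise it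
is zero. -/
noncomputable def twist {G : Type v} [Group G] {n : ℕ} (m t : ℕ) (f : (Fin (n + 1) → G) → ℤ)
    (g : Fin (n + 1) → G) : ℤ :=
  if (List.ofFn g).prod ^ m = 1 then
    f (Fin.cons ((List.ofFn g).prod ^ t * (List.ofFn g).prod⁻¹ * g 0) fun i => g i.succ)
  else 0

/-- Let `R` be a commutative ring, `G` any group and `z` a cycle of degree `n + 1` in the bar
complex of the group of invertible `r × r` matrices over `R[G]`.

(1), (2) **Elements of infinite order.**  Let `R` be torsion-free as an abelian group and let `f` be
a Hochschild `(n+1)`-cocycle on `G` with values in `R`, whose values on the tuples of elements of a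
finitely generated subgroup lie in a finitely generated subring.  Then the value of `f` on the
Dennis trace of `z` is zero in each of the following two cases.

(1) `f` is shift invariant at the elements `P` of infinite order, and for every tuple with `f g ≠ 0`
and every finitely generated subgroup `H` there are infinitely many primes `p` such that the product
of `g` is, for some `h`, not a `p ^ h`-th power in `H`.

(2) `f` is root invariant, or `n = 0` and `f` is shift invariant at the elements of infinite order;
and for every tuple with `f g ≠ 0`, with product `u`, and every finitely generated subgroup `H` which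
contains `u` there are infinitely many primes `p` such that `u` is not conjugate in `H` to any
`u ^ (p ^ j)`, `j ≥ 1`.

(3) **Elements of finite order.**  Let `f` be a Hochschild `(n+1)`-cocycle on `G` with integral
values which vanishes on the tuples whose product `u` does not satisfy `u ^ m = 1`, where `m > 0`.
Let `φ : R → E` be a homomorphism to a field of characteristic zero which contains a primitive
`m`-th root of unity `ζ`.  Then the value of `f` on the Dennis trace of `z` becomes `P(ζ)` in `E`
for a polynomial `P` with rational coefficients, and the value of the `t`-th conjugate of `f`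
becomes `P(ζ ^ s)`, for all `s`, `t` with `s t = 1` modulo `m`. -/
theorem result (R : Type u) [CommRing R] (G : Type v) [Group G] (r : Type w) [Fintype r]
    [DecidableEq r] (n : ℕ) (z : (Fin (n + 1) → (Matrix r r (MonoidAlgebra R G))ˣ) →₀ ℤ)
    (hz : barBoundary z = 0) :
    ((∀ (a : ℕ) (v : R), 0 < a → a • v = 0 → v = 0) →
      ∀ f : (Fin (n + 2) → G) → R, IsHochschildCocycle f →
        (∀ H : Subgroup G, H.FG → ∃ s : Finset R, ∀ g : Fin (n + 2) → H,
          f (fun i => (g i : G)) ∈ Algebra.adjoin ℤ (s : Set R)) →
        (∀ (P : G) (y : Fin (n + 2) → G) (j : Fin (n + 2)), ¬ IsOfFinOrder P →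
          f (pointWord P (Function.update y j (P * y j))) = f (pointWord P y)) →
        (∀ g : Fin (n + 2) → G, f g ≠ 0 → ∀ H : Subgroup G, H.FG →
          {p : ℕ | p.Prime ∧ ∃ h : ℕ, ∀ a ∈ H, a ^ p ^ h ≠ (List.ofFn g).prod}.Infinite) →
        dennis f z = 0) ∧
    ((∀ (a : ℕ) (v : R), 0 < a → a • v = 0 → v = 0) →
      ∀ f : (Fin (n + 2) → G) → R, IsHochschildCocycle f →
        (∀ H : Subgroup G, H.FG → ∃ s : Finset R, ∀ g : Fin (n + 2) → H,
          f (fun i => (g i : G)) ∈ Algebra.adjoin ℤ (s : Set R)) →
        (RootInvariant f ∨ (n = 0 ∧
          ∀ (P : G) (y : Fin (n + 2) → G) (j : Fin (n + 2)), ¬ IsOfFinOrder P →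
            f (pointWord P (Function.update y j (P * y j))) = f (pointWord P y))) →
        (∀ g : Fin (n + 2) → G, f g ≠ 0 → ∀ H : Subgroup G, H.FG → (List.ofFn g).prod ∈ H →
          {p : ℕ | p.Prime ∧ ∀ j : ℕ, 1 ≤ j → ∀ a ∈ H,
            a * (List.ofFn g).prod * a⁻¹ ≠ (List.ofFn g).prod ^ p ^ j}.Infinite) →
        dennis f z = 0) ∧
    (∀ f : (Fin (n + 2) → G) → ℤ, IsHochschildCocycle f →
      ∀ m : ℕ, 0 < m → (∀ g : Fin (n + 2) → G, (List.ofFn g).prod ^ m ≠ 1 → f g = 0) →
      ∀ (E : Type x) [Field E] [CharZero E] (φ : R →+* E) (ζ : E), IsPrimitiveRoot ζ m →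
        ∃ P : ℚ[X], φ (dennis (fun g => ((f g : ℤ) : R)) z) = aeval ζ P ∧
          ∀ s t : ℕ, s * t ≡ 1 [MOD m] →
            φ (dennis (fun g => ((twist m t f g : ℤ) : R)) z) = aeval (ζ ^ s) P) := by
  refine ⟨fun htf f hf hval hcyc hsupp => ?_, fun htf f hf hval hri hsupp => ?_,
    fun f hf m hm hfm E _ _ φ ζ hζ => ?_⟩
  · exact Pool.Agent.Y69.VN.dennis_ring htf z hz f hval hf hcyc hsupp
  · refine Pool.Agent.Y69.VN.dennis_ri_ring htf z hz f hval hf ?_ hsupp
    rcases hri with hri | ⟨rfl, hcyc⟩
    · exact Pool.Agent.Y69.VN.RIs_of f hri
    · exact Pool.Agent.Y69.VN.RIs_of_one htf f hf hcyc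
  · exact Pool.Agent.Y69.VN.Chn.galois_ring R G r n z hz f hf m hm hfm E φ ζ hζ

end Pool.Agent.Results.MP_6374fb_al.HigherChernCharacters
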