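import Pool.Agent.Y778.SL.SLS
import Pool.Agent.Y778.SL.Final
import Pool.Agent.Y778.SL.YY
import Pool.Agent.Y563.SL.Se
import Pool.Agent.Y563.SL.Tri
import Pool.Agent.Y563.SL.Tors
import Pool.Agent.Y155.SL.Inj
import Pool.Agent.Y490.SL.Nil
import Pool.Agent.Y67.SL.Thick

/-!
# MP_6374fb_al: degree zero, semilocal coefficient rings, every group
-/

set_option autoImplicit false

namespace Pool.Agent.Results.MP_6374fb_al.SemilocalK0

open Pool.Agent.Y69 Pool.Agent.Y778.SL.St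

theorem result (R : Type) [CommRing R] [Finite (MaximalSpectrum R)] (G : Type) [Group G] :
    ∃ A : KColim R G →+ KG R G,
      (∀ (H : FinSub G) (x : KF R H), A (KColim.ι H x) = KF.incl H x) ∧
      ∀ x, (∃ n : ℕ, 0 < n ∧ n • A x = 0) → ∃ l : ℕ, 0 < l ∧ l • x = 0 :=
  ⟨Pool.Agent.Y778.NK.asm R G, Pool.Agent.Y778.NK.asm_ci, fun x ⟨n, hn, hx⟩ =>
    Pool.Agent.Y778.SL.main Pool.Agent.Y490.SL.nil
      (Pool.Agent.Y155.SL.inj Pool.Agent.Y563.SL.se)
      (Pool.Agent.Y778.SL.yySL Pool.Agent.Y563.SL.tri Pool.Agent.Y563.SL.snf)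
      (Pool.Agent.Y563.SL.To.torsF Pool.Agent.Y490.SL.nil) Pool.Agent.Y67.SL.thick x n hn hx⟩

end Pool.Agent.Results.MP_6374fb_al.SemilocalK0
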