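import Pool.Agent.Y477.IW.KFin

/-!
Let `R` be any ring, `P` and `Γ` any groups, and `P ≀ Γ` the restricted wreath product.

If `Γ` is torsion-free then inside `K₁(R[P ≀ Γ])` the image of `K₁(R[Γ])` and the images of the
reduced parts of the groups `K₁(R[P^S])`, one for each translation class of nonempty finite subsets
`S` of `Γ`, form a direct sum; if moreover `P` is finite then the assembly map
`colim K₁(R[H]) → K₁(R[P ≀ Γ])`, `H` ranging over the finite subgroups of `P ≀ Γ`, is injective, and
its image meets that of `K₁(R[Γ])` in that of `K₁(R)` only. All this holds integrally.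

For all `Γ`, the kernel of every natural transformation from a functor `H` to `K₁(R[-])` is, on the
part of `H(P ≀ Γ)` which comes from `Γ` and the powers of `P`, generated by the kernels for `Γ` and
for the powers of `P`, up to a multiple of the orders of the finite subgroups of `Γ`.
-/

namespace Pool.Agent.Results.MP_6374fb_al.WreathProducts

open Pool.Agent.Y483 Pool.Agent.Y477.IW CategoryTheory

theorem result (R : Type) [Ring R] (P Γ : Type) [Group P] [Group Γ] :
    ((∀ g : Γ, g ≠ 1 → ¬ IsOfFinOrder g) → DirectSum (kgr R) P Γ ∧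
      (Finite P → Function.Injective (Col.to (kgr_inner R) (rwr P Γ)) ∧
        MeetsTrivially (kgr_inner R) (top P Γ))) ∧
    ∀ m : ℕ, (∀ K : Subgroup Γ, Finite K → Nat.card K ∣ m) → KernelFormula (kgr R) P Γ m := by
  refine ⟨fun htf => ⟨fun k n f hn hf x hx y hxy => ?_, fun hP => ?_⟩,
    fun m hm H hH α x hx hα => ?_⟩
  · exact dsum_k (finite_eq_bot htf) k n f hn hf x hx y hxy
  · exact col_inj_rwr (kgr_inner R) (kgr_cont _) (kgr_coinj (finite_eq_bot htf) (rSupp P Γ))
      (finite_eq_bot htf)
  · exact kernel_k hH α m hm x hx hα

end Pool.Agent.Results.MP_6374fb_al.WreathProducts
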